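import Pool.Agent.H2.AR.Main

/-!
# The asymptotic rank of tensors and the growth of the smoothability defect
-/

open Module TensorProduct Filter Topology

namespace Pool.Agent.Results.MP_44217d_ag.AsymptoticRank

open Pool.Agent.H2.AR Pool.Agent.H12.Defect Pool.Agent.H14.MM Pool.Agent.H14.RF

universe u

/-- Let `k` be an algebraically closed field and `T ≠ 0` an array of order `m ≥ 1` over `k` (a
function of `m` indices in finite sets). For `N ≥ 0` let `Γ_N` be the apolar scheme of the
multilinear form of the `N`-th Kronecker power `kpow (Fin N) T` of `T`. Then: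

* `deg Γ_N` is the sum of the `N`-th powers of the flattening ranks of `T`;
* the largest flattening rank `mrank T` is at most the asymptotic rank `asymRank T`;
* for all `N`, `n` the defect `δ(Γ_N ^ n)` is finite and
  `asymRank T ^ (N n) ≤ (deg Γ_N) ^ n + δ(Γ_N ^ n) ≤ (2 ^ m * rk (kpow (Fin N) T)) ^ n`;
* for every real `e ≥ 0`: `asymRank T ≤ mrank T ^ (1 + e)` if and only if for every `ε > e` and
  all sufficiently large `N` the limit statement of Q1 with this `ε` holds for `Γ_N`;
* if the limit statement of Q1 holds for all nonempty finite schemes over `k` and all `ε > 0`,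
  then the asymptotic rank of `T` is its largest flattening rank. -/
theorem result (k : Type u) [Field k] [IsAlgClosed k] {m : ℕ} (hm : 0 < m) {I : Fin m → Type}
    [∀ i, Fintype (I i)] (T : (∀ i, I i) → k) (hT : T ≠ 0) :
    (∀ N : ℕ, finrank k (FormAlg (mform (kpow (Fin N) T))) = ∑ S, frank S T ^ N) ∧
    (mrank T : ℝ) ≤ asymRank T ∧
    (∀ N n : ℕ, defect k (⨂[k] _ : Fin n, FormAlg (mform (kpow (Fin N) T))) ≠ ⊤ ∧
      asymRank T ^ (N * n) ≤ ((finrank k (FormAlg (mform (kpow (Fin N) T))) ^ n +
        (defect k (⨂[k] _ : Fin n, FormAlg (mform (kpow (Fin N) T)))).toNat : ℕ) : ℝ) ∧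
      finrank k (FormAlg (mform (kpow (Fin N) T))) ^ n +
        (defect k (⨂[k] _ : Fin n, FormAlg (mform (kpow (Fin N) T)))).toNat ≤
        (2 ^ m * rk (kpow (Fin N) T)) ^ n) ∧
    (∀ e : ℝ, 0 ≤ e → (asymRank T ≤ (mrank T : ℝ) ^ (1 + e) ↔
      ∀ ε : ℝ, e < ε → ∀ᶠ N : ℕ in atTop,
        Tendsto (growthRatio k (FormAlg (mform (kpow (Fin N) T))) ε) atTop (𝓝 0))) ∧
    ((∀ (A : Type u) [CommRing A] [Algebra k A] [Module.Finite k A] [Nontrivial A] (ε : ℝ),
      0 < ε → Tendsto (growthRatio k A ε) atTop (𝓝 0)) → asymRank T = mrank T) := by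
  have : Infinite k := IsAlgClosed.instInfinite
  have : Nonempty (Fin m) := ⟨⟨0, hm⟩⟩
  refine ⟨fun N => ?_, mrank_le_asymRank T, fun N n => law hT N n,
    fun e he => asymRank_le_iff hT he, fun h => ?_⟩
  · rw [finrank_form]
    refine Finset.sum_congr rfl fun S _ => ?_
    rw [frank_kpow, Fintype.card_fin]
  · refine le_antisymm ?_ (mrank_le_asymRank T)
    have h1 := (asymRank_le_iff hT le_rfl).mpr fun ε hε => Eventually.of_forall fun N => ?_
    · rwa [add_zero, Real.rpow_one] at h1
    · have := nontrivial_powAlg hT N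
      exact h (FormAlg (mform (kpow (Fin N) T))) ε hε

end Pool.Agent.Results.MP_44217d_ag.AsymptoticRank
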