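import Pool.Agent.H62.TL.Final

/-!
# Bounded catalysis, and Q1 as multiplicativity, or additivity, of the growth rate
-/

open TensorProduct Module Filter Topology

namespace Pool.Agent.Results.MP_44217d_ag.CatalyticExactness

open Pool.Agent.H12.Defect Pool.Agent.H14.MM Pool.Agent.H15.CX

universe u

/-- For every local `k`-algebra `A` and every `A`-module `F` of finite dimension annihilated by the
maximal ideal: `Spec (A ⊕ F)`, with `F` an ideal of square zero, is smoothable if and only if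
`δ(Spec A) ≤ dim F`. -/
def Tails (k : Type u) [Field k] : Prop :=
  ∀ (A F : Type u) [CommRing A] [Algebra k A] [Module.Finite k A] [IsLocalRing A]
    [AddCommGroup F] [Module k F] [Module.Finite k F] [Module A F] [IsScalarTower k A F]
    [Module Aᵐᵒᵖ F] [IsCentralScalar A F],
    (∀ a ∈ IsLocalRing.maximalIdeal A, ∀ f : F, a • f = 0) →
    (IsSmoothable k (TrivSqZeroExt A F) ↔ defect k A ≤ (finrank k F : ℕ∞))

/-- For all `d` and `m` there is `C` such that for every `k`-algebra `A` of dimension `d`, every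
`A`-module `E` of dimension `m` and all `b`: `δ(Spec (A ⊕ E ^ b)) ≤ C`, where `E ^ b` is an ideal of
square zero in `A ⊕ E ^ b`; and if `A` is local then `Spec (A ⊕ E ^ b ⊕ F)`, with `E ^ b ⊕ F` an ideal
of square zero, is smoothable for every `A`-module `F` annihilated by the maximal ideal with
`dim F ≥ C`. -/
def ModBound (k : Type u) [Field k] : Prop :=
  ∀ d m : ℕ, ∃ C : ℕ, ∀ (A E : Type u) [CommRing A] [Algebra k A] [Module.Finite k A]
    [AddCommGroup E] [Module k E] [Module.Finite k E] [Module A E] [IsScalarTower k A E]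
    [Module Aᵐᵒᵖ E] [IsCentralScalar A E], finrank k A = d → finrank k E = m →
    ∀ b : ℕ, defect k (TrivSqZeroExt A (Fin b → E)) ≤ (C : ℕ∞) ∧
      ∀ (F : Type u) [AddCommGroup F] [Module k F] [Module.Finite k F] [Module A F]
        [IsScalarTower k A F] [Module Aᵐᵒᵖ F] [IsCentralScalar A F] [IsLocalRing A],
        (∀ a ∈ IsLocalRing.maximalIdeal A, ∀ f : F, a • f = 0) → C ≤ finrank k F →
        IsSmoothable k (TrivSqZeroExt A ((Fin b → E) × F))

/-- For every `d` there is `K` such that for every nonempty `Γ` of degree `d`: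
`δ(Γ ^ n × Z_b) ≤ K ^ n` for all `n ≥ 1` and all `b`; the quotient of `δ(Γ ^ n × Z_(B ^ n))` by
`deg (Γ ^ n × Z_(B ^ n)) = d ^ n (B ^ n + 1)` tends to zero as `n → ∞` for every `B > K`; and for
all `b`, `0 ≤ L(Γ × Z_b) - d (b + 1) ≤ K`, and `δ(Γ ⊔ Z_b) = δ(Γ)` while
`0 ≤ L(Γ ⊔ Z_b) - (d + b + 1) ≤ K / (b + 1)`. -/
def PowBound (k : Type u) [Field k] : Prop :=
  ∀ d : ℕ, ∃ K : ℕ, ∀ (A : Type u) [CommRing A] [Algebra k A] [Module.Finite k A]
    [Nontrivial A], finrank k A = d →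
    (∀ n b : ℕ, 1 ≤ n → defect k ((⨂[k] _ : Fin n, A) ⊗[k] ZZ k b) ≤ ((K ^ n : ℕ) : ℕ∞)) ∧
    (∀ B : ℕ, K < B → Tendsto (fun n : ℕ =>
      ((defect k ((⨂[k] _ : Fin n, A) ⊗[k] ZZ k (B ^ n))).toNat : ℝ) /
        ((d : ℝ) ^ n * ((B : ℝ) ^ n + 1))) atTop (𝓝 0)) ∧
    ∀ b : ℕ, (d * ((b : ℝ) + 1) ≤ Lam k (A ⊗[k] ZZ k b) ∧
        Lam k (A ⊗[k] ZZ k b) ≤ d * ((b : ℝ) + 1) + K) ∧
      defect k (A × ZZ k b) = defect k A ∧
      (d + ((b : ℝ) + 1) ≤ Lam k (A × ZZ k b) ∧
        Lam k (A × ZZ k b) ≤ d + ((b : ℝ) + 1) + K / ((b : ℝ) + 1))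

/-- Let `k` be algebraically closed, `Z_b = Spec k[y_1, …, y_b]/(y_1, …, y_b)^2` (smoothable, of
degree `b + 1`) and, for a nonempty finite scheme `Γ` of degree `d`, let `L(Γ)` be the limit of
`(d ^ n + δ(Γ ^ n)) ^ (1 / n)`.

(1) For local `Γ = Spec A` and every `A`-module `F` of finite dimension annihilated by the maximal
ideal: `Spec (A ⊕ F)`, with `F` an ideal of square zero, is smoothable if and only if
`δ(Γ) ≤ dim F`. So `δ(Γ)` is the least number of tangent directions which, added to `Γ` at its point,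
make it smoothable.

(2) For all `d` and `m` there is `C` such that for every `k`-algebra `A` of dimension `d`, every
`A`-module `E` of dimension `m` and all `b`: `δ(Spec (A ⊕ E ^ b)) ≤ C`, where `E ^ b` is an ideal of
square zero in `A ⊕ E ^ b`; for local `A`, `Spec (A ⊕ E ^ b ⊕ F)` is smoothable for all `F` as in (1)
with `dim F ≥ C`.

(3) For every `d` there is `K` such that for every nonempty `Γ` of degree `d`:
`δ(Γ ^ n × Z_b) ≤ K ^ n` for all `n ≥ 1` and all `b`; the quotient of `δ(Γ ^ n × Z_(B ^ n))` by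
`deg (Γ ^ n × Z_(B ^ n))` tends to zero as `n → ∞` for every `B > K`; and for all `b`,
`0 ≤ L(Γ × Z_b) - deg (Γ × Z_b) ≤ K`, and `δ(Γ ⊔ Z_b) = δ(Γ)` while
`0 ≤ L(Γ ⊔ Z_b) - deg (Γ ⊔ Z_b) ≤ K / (b + 1)`.

(4) For every single `Γ` the following are equivalent: the limit of Q1 for all `ε > 0`;
`L(Γ) = deg Γ`; `L(Γ × Z) = L(Γ) L(Z)` for all smoothable `Z`; `L(Γ ⊔ Z) = L(Γ) + L(Z)` for all
smoothable `Z`; the third for `Z = Z_b` and infinitely many `b`; the fourth for `Z = Z_b` and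
infinitely many `b`. Hence Q1 holds if and only if `L` is multiplicative, and if and only if `L` is
additive for disjoint unions. -/
theorem result (k : Type u) [Field k] [IsAlgClosed k] :
    (∀ b : ℕ, IsSmoothable k (ZZ k b) ∧ finrank k (ZZ k b) = b + 1) ∧
    Tails k ∧
    ModBound k ∧
    PowBound k ∧
    (∀ (A : Type u) [CommRing A] [Algebra k A] [Module.Finite k A] [Nontrivial A],
      (∀ n : ℕ, defect k (⨂[k] _ : Fin n, A) ≠ ⊤) ∧
      Tendsto (fun n : ℕ => (cdeg k A n : ℝ) ^ (1 / (n : ℝ))) atTop (𝓝 (Lam k A)) ∧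
      List.TFAE
        [∀ ε : ℝ, 0 < ε → Tendsto (growthRatio k A ε) atTop (𝓝 0),
         Lam k A = finrank k A,
         ∀ (Z : Type u) [CommRing Z] [Algebra k Z] [Nontrivial Z], IsSmoothable k Z →
           Lam k (A ⊗[k] Z) = Lam k A * Lam k Z,
         ∀ (Z : Type u) [CommRing Z] [Algebra k Z] [Nontrivial Z], IsSmoothable k Z →
           Lam k (A × Z) = Lam k A + Lam k Z,
         ∃ᶠ b : ℕ in atTop, Lam k (A ⊗[k] ZZ k b) = Lam k A * Lam k (ZZ k b),
         ∃ᶠ b : ℕ in atTop, Lam k (A × ZZ k b) = Lam k A + Lam k (ZZ k b)]) ∧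
    List.TFAE
      [∀ (A : Type u) [CommRing A] [Algebra k A] [Module.Finite k A] [Nontrivial A] (ε : ℝ),
         0 < ε → Tendsto (growthRatio k A ε) atTop (𝓝 0),
       ∀ (A B : Type u) [CommRing A] [Algebra k A] [Module.Finite k A] [Nontrivial A]
         [CommRing B] [Algebra k B] [Module.Finite k B] [Nontrivial B],
         Lam k (A ⊗[k] B) = Lam k A * Lam k B,
       ∀ (A B : Type u) [CommRing A] [Algebra k A] [Module.Finite k A] [Nontrivial A]
         [CommRing B] [Algebra k B] [Module.Finite k B] [Nontrivial B],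
         Lam k (A × B) = Lam k A + Lam k B] := by
  refine ⟨fun b => ⟨isSmoothable_ZZ k b, finrank_ZZ k b⟩,
    Pool.Agent.H62.TL.tails, Pool.Agent.H62.TL.bounded_modules_tails k,
    Pool.Agent.H62.TL.bounded_final k, ?_, tfae_all⟩
  intro A _ _ _ _
  refine ⟨fun n => (Pool.Agent.H15.Defect.defect_eq (dle_cdeg (k := k) (A := A) n)).1,
    tendsto_cdeg, ?_⟩
  have hZ : ∀ (Z : Type u) [CommRing Z] [Algebra k Z], IsSmoothable k Z →
      Lam k Z = finrank k Z := fun Z _ _ h => Lam_of_smoothable h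
  have hb : ∀ b : ℕ, Lam k (ZZ k b) = (b : ℝ) + 1 := by
    intro b
    rw [Lam_of_smoothable (isSmoothable_ZZ k b), finrank_ZZ]
    push_cast
    rfl
  have h := tfae_single (k := k) A
  tfae_have 1 ↔ 2 := h.out 0 1
  tfae_have 2 ↔ 3 := by
    refine (h.out 1 2).trans ?_
    constructor
    · intro h Z _ _ _ hs
      rw [h Z hs, hZ Z hs]
    · intro h Z _ _ _ hs
      rw [h Z hs, hZ Z hs]
  tfae_have 2 ↔ 4 := by
    refine (h.out 1 3).trans ?_
    constructor
    · intro h Z _ _ _ hs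
      rw [h Z hs, hZ Z hs]
    · intro h Z _ _ _ hs
      rw [h Z hs, hZ Z hs]
  tfae_have 2 ↔ 5 := by
    simp only [hb]
    exact h.out 1 4
  tfae_have 2 ↔ 6 := by
    simp only [hb]
    exact h.out 1 5
  tfae_finish

end Pool.Agent.Results.MP_44217d_ag.CatalyticExactness
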