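import Pool.Agent.H86.DB.All

/-!
# Bounds for the smoothability defect of a finite scheme and of its powers
-/

open TensorProduct Module MvPolynomial Filter Topology

namespace Pool.Agent.Results.MP_44217d_ag.DefectBounds

open Pool.Agent.H12.Defect Pool.Agent.H14.MM Pool.Agent.H12.TG
open Pool.Agent.H15.Keep.TangentGrowth Pool.Agent.H86.DB

universe u

/-- Let `k` be an algebraically closed field; `δ = defect`, `⨂[k] _ : Fin n, A` is the `n`-th
tensor power of `A`, the algebra of the `n`-th power of `Γ = Spec A`.

(1) Closed subschemes of `𝔸^m`: the degree plus the defect is at most `m!` times the degree, for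
the powers it is at most `(m! d)^n`, and the limit of Q1 holds for every `ε` with `m! < d^ε`.

(2) Powers of an ideal of finite colength: the quotient of the degree plus the defect by the degree
tends to `1`.

(3) All finite schemes: the degree plus the defect is at most the number of partitions of the
degree, and for the powers at most its `n`-th power.

(4) If the tangent space of the Hilbert scheme has less than `m d` dimensions, then the defect of
the powers grows exponentially, with the rate `β = min (√d) (d / τ) > 1`. -/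
theorem result (k : Type u) [Field k] [IsAlgClosed k] :
    (∀ (m : ℕ) (A : Type u) [CommRing A] [Algebra k A] [Module.Finite k A]
      (g : MvPolynomial (Fin m) k →ₐ[k] A), Function.Surjective g →
      (defect k A ≠ ⊤ ∧ finrank k A + (defect k A).toNat ≤ m.factorial * finrank k A) ∧
      (∀ n : ℕ, defect k (⨂[k] _ : Fin n, A) ≠ ⊤ ∧
        finrank k A ^ n + (defect k (⨂[k] _ : Fin n, A)).toNat ≤
          (m.factorial * finrank k A) ^ n) ∧
      (Nontrivial A → ∀ ε : ℝ, (m.factorial : ℝ) < (finrank k A : ℝ) ^ ε →
        Tendsto (growthRatio k A ε) atTop (𝓝 0))) ∧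
    (∀ (m : ℕ) (I : Ideal (MvPolynomial (Fin m) k)),
      Module.Finite k (MvPolynomial (Fin m) k ⧸ I) → I ≠ ⊤ →
      Tendsto (fun c : ℕ => ((finrank k (MvPolynomial (Fin m) k ⧸ I ^ c) : ℝ) +
        (defect k (MvPolynomial (Fin m) k ⧸ I ^ c)).toNat) /
          finrank k (MvPolynomial (Fin m) k ⧸ I ^ c)) atTop (𝓝 1)) ∧
    (∀ (A : Type u) [CommRing A] [Algebra k A] [Module.Finite k A],
      finrank k A + (defect k A).toNat ≤ Fintype.card (Nat.Partition (finrank k A)) ∧
      ∀ n : ℕ, defect k (⨂[k] _ : Fin n, A) ≠ ⊤ ∧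
        finrank k A ^ n + (defect k (⨂[k] _ : Fin n, A)).toNat ≤
          Fintype.card (Nat.Partition (finrank k A)) ^ n) ∧
    (∀ (m : ℕ) (I : Ideal (MvPolynomial (Fin m) k)),
      Module.Finite k (MvPolynomial (Fin m) k ⧸ I) →
      tangentDim I < m * finrank k (MvPolynomial (Fin m) k ⧸ I) →
      1 < rate k (MvPolynomial (Fin m) k ⧸ I) ∧
      ∀ n : ℕ, 1 ≤ n → rate k (MvPolynomial (Fin m) k ⧸ I) ^ (n - 1) ≤
        4 * m * finrank k (MvPolynomial (Fin m) k ⧸ I) *
          (defect k (⨂[k] _ : Fin n, MvPolynomial (Fin m) k ⧸ I)).toNat) :=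
  ⟨fun m A _ _ _ g hg => lin_part k m A g hg,
    fun m I hf hI => thick c_THK k m I hf hI,
    fun A _ _ _ => part_part k A,
    fun m I hf ht => low_part k m I hf ht⟩

end Pool.Agent.Results.MP_44217d_ag.DefectBounds
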