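import Pool.Agent.H23.UVD.OnePower

/-!
# Q1 and one power of each elementary Gorenstein scheme
-/

open TensorProduct Module Filter Topology MvPolynomial

namespace Pool.Agent.Results.MP_44217d_ag.OnePower

open Pool.Agent.H12.Defect Pool.Agent.H14.MM Pool.Agent.H15.CX Pool.Agent.H23.UVD
open Pool.Agent.H15.ER Pool.Agent.H2.WG Pool.Agent.H14.RF Pool.Agent.H74.UVD

universe u

/-- the limit of Q1 for all nonempty finite schemes over `k` and all `ε > e`; Q1 for `e = 0` -/
def Q1Above (k : Type u) [Field k] (e : ℝ) : Prop :=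
  ∀ (A : Type u) [CommRing A] [Algebra k A] [Module.Finite k A] [Nontrivial A] (ε : ℝ),
    e < ε → Tendsto (growthRatio k A ε) atTop (𝓝 0)

/-- `δ(X)` is finite and `D(X) = deg X + δ(X)` is less than `x`, for `X = Spec B` -/
def Below (k : Type u) [Field k] (B : Type u) [CommRing B] [Algebra k B] (x : ℝ) : Prop :=
  defect k B ≠ ⊤ ∧ (DD k B : ℝ) < x

/-- the ring `k[x_1, …, x_d] ⧸ (x_1, …, x_d) ^ d` -/
def Fat (k : Type u) [Field k] (d : ℕ) : Type u :=
  MvPolynomial (Fin d) k ⧸ (Ideal.span (Set.range (X : Fin d → MvPolynomial (Fin d) k))) ^ d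

noncomputable instance (k : Type u) [Field k] (d : ℕ) : CommRing (Fat k d) :=
  Ideal.Quotient.commRing _

noncomputable instance (k : Type u) [Field k] (d : ℕ) : Algebra k (Fat k d) :=
  Ideal.Quotient.algebra k

/-- the coordinate ring of the scheme `P_d`, the disjoint union of `d` copies of
`Spec k[x_1, …, x_d] ⧸ (x_1, …, x_d) ^ d` -/
def Pts (k : Type u) [Field k] (d : ℕ) : Type u := Fin d → Fat k d

noncomputable instance (k : Type u) [Field k] (d : ℕ) : CommRing (Pts k d) := Pi.commRing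

noncomputable instance (k : Type u) [Field k] (d : ℕ) : Algebra k (Pts k d) :=
  Pi.algebra (Fin d) (fun _ => Fat k d)

/-- the set `V_d` of all nonempty closed subschemes of degree at most `d` of the scheme `P_d` -/
def VD (k : Type u) [Field k] (d : ℕ) : Set (Ideal (Pts k d)) :=
  {I | I ≠ ⊤ ∧ finrank k (Pts k d ⧸ I) ≤ d}

/-- For each nonzero form `F` over `k` and all `ε > e`, the Waring rank of the product of `N` copies
of `F` in disjoint sets of variables is at most `(deg Γ_F) ^ ((1 + ε) N)` for all large `N`, where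
`Γ_F` is the apolar scheme of `F`. -/
def WaringAbove (k : Type u) [Field k] (e : ℝ) : Prop :=
  ∀ (v c : ℕ) (φ : MvPolynomial (Fin v) k →ₗ[k] k), IsForm φ c → φ ≠ 0 → ∀ ε : ℝ,
    e < ε → ∀ᶠ N : ℕ in atTop, (waringRank (pw φ (Fin N)) (c * N) : ℝ) ≤
      (finrank k (FormAlg φ) : ℝ) ^ ((1 + ε) * N)

/-- Let `K ⊆ k` be algebraically closed fields, `e ≥ 0`, and `D(X) = deg X + δ(X)`. There are
numbers `ε₀(d) > 0` with the following two properties.

(A) For every nonempty finite scheme `Γ` over `K`, with `d = deg Γ`: if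
`D(Γ ^ n) < (d ^ (1 + e) + ε₀(d)) ^ n` for a single `n ≥ 1`, then the limit of Q1 holds for `Γ` and
all `ε > e`.

(B) The following are equivalent.
(1) The limit of Q1 holds for all nonempty finite schemes over `k` and all `ε > e` (for `e = 0` this
is Q1 over `k`).
(2) The same for schemes over `K`.
(3) For each elementary Gorenstein finite scheme `Γ` over `K`, with `d = deg Γ`,
`D(Γ ^ n) < (d ^ (1 + e) + ε₀(d)) ^ n` for a single `n ≥ 1`.
(4) For every `d ≥ 1`, `D(U_N) ^ (1 / N)` converges to a number which is at most `d ^ (1 + e)`,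
where `U_N` is the least closed subscheme of `(P_d) ^ N` which contains `Γ ^ N` for all nonempty
closed subschemes `Γ` of degree at most `d` of `P_d`, over `K`.
(5) For every `d ≥ 1`, `D(U_N) < (d ^ (1 + e) + ε₀(d)) ^ N` for a single `N ≥ 1`.
(6) For every nonzero form `F` over `k`, with apolar scheme `Γ_F`, and all `ε > e`, the Waring rank
of the product of `N` copies of `F` in disjoint sets of variables is at most
`(deg Γ_F) ^ ((1 + ε) N)` for all large `N`. -/
theorem result (k : Type u) [Field k] [IsAlgClosed k] (K : Type u) [Field K] [Algebra K k]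
    [IsAlgClosed K] (e : ℝ) (he : 0 ≤ e) :
    ∃ ε₀ : ℕ → ℝ, (∀ d, 0 < ε₀ d) ∧
      (∀ (A : Type u) [CommRing A] [Algebra K A] [Module.Finite K A] [Nontrivial A] (n : ℕ),
        1 ≤ n → Below K (⨂[K] _ : Fin n, A)
          (((finrank K A : ℝ) ^ (1 + e) + ε₀ (finrank K A)) ^ n) →
        ∀ ε : ℝ, e < ε → Tendsto (growthRatio K A ε) atTop (𝓝 0)) ∧
      List.TFAE [
        Q1Above k e,
        Q1Above K e,
        ∀ (A : Type u) [CommRing A] [Algebra K A] [Module.Finite K A] [Nontrivial A],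
          IsGor K A → IsElementary K A → ∃ n : ℕ, 1 ≤ n ∧ Below K (⨂[K] _ : Fin n, A)
            (((finrank K A : ℝ) ^ (1 + e) + ε₀ (finrank K A)) ^ n),
        ∀ d : ℕ, 1 ≤ d → (∀ N : ℕ, defect K (UQ K (VD K d) N) ≠ ⊤) ∧
          ∃ l : ℝ, l ≤ (d : ℝ) ^ (1 + e) ∧
            Tendsto (fun N : ℕ => (DD K (UQ K (VD K d) N) : ℝ) ^ (1 / (N : ℝ))) atTop (𝓝 l),
        ∀ d : ℕ, 1 ≤ d → ∃ N : ℕ, 1 ≤ N ∧
          Below K (UQ K (VD K d) N) (((d : ℝ) ^ (1 + e) + ε₀ d) ^ N),
        WaringAbove k e] := by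
  have hLIM : T_LIM K := pf_LIM K
  have hCLS : T_CLS K := Pool.Agent.H10.UVD.pf_CLS K
  have hCLO : T_CLO K := pf_CLO K hCLS
  have hWFP : T_WFP K := Pool.Agent.H4.UVD.pf_WFP K hCLO
  have hPD : T_PD K := Pool.Agent.H36.UVD.pf_PD K
  have hPDF : T_PDF K := Pool.Agent.H36.UVD.pf_PDF K
  have hWF : T_WF K := pf_WF K hWFP hPD hPDF
  have hfin : ∀ (A : Type u) [CommRing A] [Algebra K A] [Module.Finite K A] (n : ℕ),
      defect K (⨂[K] _ : Fin n, A) ≠ ⊤ := fun A _ _ _ n =>
    (Pool.Agent.H15.Defect.defect_eq (dle_cdeg (k := K) (A := A) n)).1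
  choose ε₀ h0 hgap using fun d : ℕ => gap_real K hWF ((d : ℝ) ^ (1 + e))
  have hA : ∀ (A : Type u) [CommRing A] [Algebra K A] [Module.Finite K A] [Nontrivial A] (n : ℕ),
      1 ≤ n → Below K (⨂[K] _ : Fin n, A)
        (((finrank K A : ℝ) ^ (1 + e) + ε₀ (finrank K A)) ^ n) →
      ∀ ε : ℝ, e < ε → Tendsto (growthRatio K A ε) atTop (𝓝 0) := by
    intro A _ _ _ _ n hn hlt
    refine (above_iff_Lam K he A).mpr (hgap _ A ?_)
    refine Lam_lt_of_power K ?_ A hn hlt.2
    have h4 := Real.rpow_nonneg (Nat.cast_nonneg (finrank K A) : (0 : ℝ) ≤ _) (1 + e)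
    have h5 := h0 (finrank K A)
    linarith
  refine ⟨ε₀, h0, hA, ?_⟩
  have hU := univ_equiv K hLIM hPD hPDF he ε₀ h0 fun d A _ _ _ _ h => hgap d A h
  have hU01 := hU.out 0 1 rfl rfl
  have hU02 := hU.out 0 2 rfl rfl
  have hfinU : ∀ d : ℕ, 1 ≤ d → ∀ N : ℕ, defect K (UQ K (VD K d) N) ≠ ⊤ := by
    intro d hd
    have : Module.Finite K (PD K d) := hPDF d
    exact (hLIM (PD K d) (VV K d) (VV_nonempty K hPD hd) fun I hI => hI.1).1
  tfae_have 1 ↔ 2 := (field_independence (K := K) (k := k) he).symm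
  tfae_have 2 → 3 := by
    intro h A _ _ _ _ _ _
    have h1 : Lam K A ≤ (finrank K A : ℝ) ^ (1 + e) :=
      (above_iff_Lam K he A).mp fun ε hε => h A ε hε
    obtain ⟨n, hn, hlt⟩ := exists_power_of_Lam_lt K A
      (x := (finrank K A : ℝ) ^ (1 + e) + ε₀ (finrank K A)) (by
        have h5 := h0 (finrank K A)
        linarith)
    exact ⟨n, hn, hfin A n, hlt⟩
  tfae_have 3 → 2 := fun h => all_of_elementary_gor he
    fun A _ _ _ _ hG hE => by
      obtain ⟨n, hn, hlt⟩ := h A hG hE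
      exact hA A n hn hlt
  tfae_have 2 ↔ 4 := by
    constructor
    · intro h d hd
      refine ⟨hfinU d hd, ?_⟩
      exact hU01.mp (fun A _ _ _ _ =>
        (above_iff_Lam K he A).mp fun ε hε => h A ε hε) d hd
    · intro h A _ _ _ _ ε hε
      exact (above_iff_Lam K he A).mpr (hU01.mpr (fun d hd => (h d hd).2) A) ε hε
  tfae_have 2 ↔ 5 := by
    constructor
    · intro h d hd
      obtain ⟨N, hN, hlt⟩ := hU02.mp (fun A _ _ _ _ =>
        (above_iff_Lam K he A).mp fun ε hε => h A ε hε) d hd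
      exact ⟨N, hN, hfinU d hd N, hlt⟩
    · intro h A _ _ _ _ ε hε
      refine (above_iff_Lam K he A).mpr (hU02.mpr (fun d hd => ?_) A) ε hε
      obtain ⟨N, hN, hlt⟩ := h d hd
      exact ⟨N, hN, hlt.2⟩
  tfae_have 1 ↔ 6 := by
    rw [Q1Above, all_iff_forms he]
    constructor
    · intro h v c φ hφ hφ0
      exact (waring_iff_gr hφ hφ0 he).mpr ((limit_iff_gr hφ hφ0 he).mp (h v c φ hφ hφ0))
    · intro h v c φ hφ hφ0
      exact (limit_iff_gr hφ hφ0 he).mpr ((waring_iff_gr hφ hφ0 he).mp (h v c φ hφ hφ0))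
  tfae_finish

end Pool.Agent.Results.MP_44217d_ag.OnePower
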